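import Mathlib

set_option autoImplicit false

namespace Pool.Agent.Results.MP_f72d10_lc.TwoSquaresSharp

open Polynomial

noncomputable def G (m : ℕ) : ℝ[X] :=
  expand ℝ 2 ((Chebyshev.T ℝ m).comp (C 2 * X + C (-1)))

lemma G_card (m : ℕ) : (G m).support.card ≤ m + 1 := by
  unfold G
  set P := (Chebyshev.T ℝ m).comp (C 2 * X + C (-1)) with hP
  have hdeg : P.natDegree ≤ m := by
    have h1 : P.natDegree ≤ (Chebyshev.T ℝ m).natDegree * (C (2:ℝ) * X + C (-1)).natDegree :=
      natDegree_comp_le
    have h2 : (Chebyshev.T ℝ (m:ℤ)).natDegree = m := by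
      simpa using Chebyshev.natDegree_T ℝ (m:ℤ)
    have h3 : (C (2:ℝ) * X + C (-1)).natDegree ≤ 1 := natDegree_linear_le
    rw [h2] at h1
    calc P.natDegree ≤ m * (C (2:ℝ) * X + C (-1)).natDegree := h1
      _ ≤ m * 1 := Nat.mul_le_mul_left _ h3
      _ = m := by ring
  have hsub : (expand ℝ 2 P).support ⊆ (Finset.range (m+1)).image (fun i => i * 2) := by
    intro n hn
    rw [mem_support_iff, coeff_expand (by norm_num)] at hn
    split_ifs at hn with h2
    · rw [Finset.mem_image]
      refine ⟨n / 2, ?_, Nat.div_mul_cancel h2⟩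
      rw [Finset.mem_range]
      have := le_natDegree_of_ne_zero hn
      omega
    · exact absurd rfl hn
  calc (expand ℝ 2 P).support.card ≤ ((Finset.range (m+1)).image (fun i => i * 2)).card :=
        Finset.card_le_card hsub
    _ ≤ (Finset.range (m+1)).card := Finset.card_image_le
    _ = m + 1 := Finset.card_range _

lemma G_eval (m : ℕ) (θ : ℝ) : (G m).eval (Real.cos θ) = Real.cos (m * (2 * θ)) := by
  unfold G
  rw [expand_eval, eval_comp]
  have h : (C (2:ℝ) * X + C (-1)).eval (Real.cos θ ^ 2) = Real.cos (2 * θ) := by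
    rw [Real.cos_two_mul]; simp; ring
  rw [h]
  have := Chebyshev.T_real_cos (2 * θ) (m:ℤ)
  simpa using this

noncomputable def f (m : ℕ) : ℝ[X] := C 2 * (G m)^2 + C (-1) * (1:ℝ[X])^2

lemma f_eval (m : ℕ) (θ : ℝ) : (f m).eval (Real.cos θ) = Real.cos (4 * m * θ) := by
  unfold f
  have h : (C (2:ℝ) * (G m)^2 + C (-1) * (1:ℝ[X])^2).eval (Real.cos θ) =
      2 * (Real.cos (m * (2 * θ)))^2 - 1 := by
    rw [← G_eval]; simp; ring
  rw [h, ← Real.cos_two_mul]
  congr 1; ring

lemma f_ne (m : ℕ) : f m ≠ 0 := by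
  intro h
  have h1 := f_eval m 0
  rw [h] at h1
  simp at h1

lemma f_roots (m : ℕ) (hm : 1 ≤ m) : 4 * m ≤ (f m).roots.toFinset.card := by
  have hmR : (0:ℝ) < (m:ℝ) := by exact_mod_cast hm
  have hsub : (Finset.range (4*m)).image
      (fun k : ℕ => Real.cos ((2*(k:ℝ)+1) * Real.pi / (8*m))) ⊆ (f m).roots.toFinset := by
    intro x hx
    rw [Finset.mem_image] at hx
    obtain ⟨k, _, rfl⟩ := hx
    rw [Multiset.mem_toFinset, mem_roots (f_ne m), IsRoot, f_eval, Real.cos_eq_zero_iff]
    refine ⟨(k:ℤ), ?_⟩
    push_cast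
    field_simp
    ring
  have hinj : Set.InjOn (fun k : ℕ => Real.cos ((2*(k:ℝ)+1) * Real.pi / (8*m)))
      (Finset.range (4*m) : Finset ℕ) := by
    intro a ha b hb hab
    have hmem : ∀ k : ℕ, k ∈ (Finset.range (4*m) : Finset ℕ) →
        (2*(k:ℝ)+1) * Real.pi / (8*m) ∈ Set.Icc 0 Real.pi := by
      intro k hk
      rw [Finset.mem_range] at hk
      have hk' : (k:ℝ) + 1 ≤ 4 * m := by exact_mod_cast hk
      have hpi := Real.pi_pos
      constructor
      · positivity
      · rw [div_le_iff₀ (by positivity)]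
        nlinarith
    have h1 := Real.injOn_cos (hmem a ha) (hmem b hb) hab
    have hpi := Real.pi_pos
    have h2 : (a:ℝ) = (b:ℝ) := by
      field_simp at h1
      linarith
    exact_mod_cast h2
  calc 4 * m = (Finset.range (4*m)).card := (Finset.card_range _).symm
    _ = ((Finset.range (4*m)).image
      (fun k : ℕ => Real.cos ((2*(k:ℝ)+1) * Real.pi / (8*m)))).card :=
        (Finset.card_image_of_injOn hinj).symm
    _ ≤ _ := Finset.card_le_card hsub

/-! ### The upper bound for two squares -/

lemma sv_lt (n : ℕ) : ∀ P : ℝ[X], P ≠ 0 → P.support.card = n → P.signVariations + 1 ≤ n := by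
  induction n with
  | zero =>
    intro P hP h
    exact absurd (card_support_eq_zero.mp h) hP
  | succ n ih =>
    intro P hP h
    by_cases he : P.eraseLead = 0
    · have h1 := P.eraseLead_add_monomial_natDegree_leadingCoeff
      rw [he, zero_add] at h1
      have h2 : P.signVariations = 0 := by
        rw [← h1]; exact signVariations_monomial _ _
      omega
    · have h1 := signVariations_le_eraseLead_succ P
      have h2 : P.eraseLead.support.card = n := by
        exact card_support_eraseLead' h
      have h3 := ih _ he h2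
      omega

lemma pos_roots (P : ℝ[X]) (hP : P ≠ 0) :
    (P.roots.toFinset.filter (fun x => 0 < x)).card + 1 ≤ P.support.card := by
  have h1 := roots_countP_pos_le_signVariations P
  have h2 := sv_lt _ P hP rfl
  have h3 : (P.roots.toFinset.filter (fun x => 0 < x)).card ≤ P.roots.countP (0 < ·) := by
    rw [Multiset.countP_eq_card_filter, ← Multiset.toFinset_filter]
    exact Multiset.toFinset_card_le _
  omega

lemma neg_roots (P : ℝ[X]) (hP : P ≠ 0) :
    (P.roots.toFinset.filter (fun x => x < 0)).card + 1 ≤ P.support.card := by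
  set Q := P.comp (C (-1) * X) with hQ
  have hQcoeff : ∀ n, Q.coeff n = P.coeff n * (-1) ^ n := fun n => comp_C_mul_X_coeff
  have hsup : Q.support = P.support := by
    ext n
    rw [mem_support_iff, mem_support_iff, hQcoeff]
    constructor
    · intro h h0; exact h (by rw [h0, zero_mul])
    · intro h
      exact mul_ne_zero h (pow_ne_zero _ (by norm_num))
  have hQ0 : Q ≠ 0 := by
    rw [Ne, ← card_support_eq_zero, hsup, card_support_eq_zero]; exact hP
  have h1 := pos_roots Q hQ0
  rw [hsup] at h1
  refine le_trans (Nat.add_le_add_right ?_ 1) h1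
  apply Finset.card_le_card_of_injOn (fun x => -x)
  · intro x hx
    rw [Finset.mem_coe, Finset.mem_filter, Multiset.mem_toFinset, mem_roots hP] at hx
    rw [Finset.mem_coe, Finset.mem_filter, Multiset.mem_toFinset, mem_roots hQ0]
    refine ⟨?_, by linarith [hx.2]⟩
    rw [IsRoot, hQ, eval_comp]
    have : (C (-1) * X : ℝ[X]).eval (-x) = x := by simp
    rw [this]
    exact hx.1
  · intro x _ y _ hxy
    exact neg_injective hxy

lemma card_roots_le (P : ℝ[X]) (hP : P ≠ 0) :
    P.roots.toFinset.card + 1 ≤ 2 * P.support.card := by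
  have h1 := pos_roots P hP
  have h2 := neg_roots P hP
  have h3 : P.roots.toFinset ⊆ (P.roots.toFinset.filter (fun x => 0 < x)) ∪
      ((P.roots.toFinset.filter (fun x => x < 0)) ∪ {0}) := by
    intro x hx
    rw [Finset.mem_union, Finset.mem_union, Finset.mem_filter, Finset.mem_filter,
      Finset.mem_singleton]
    rcases lt_trichotomy x 0 with h | h | h
    · right; left; exact ⟨hx, h⟩
    · right; right; exact h
    · left; exact ⟨hx, h⟩
  have h4 := Finset.card_le_card h3
  have h5 := Finset.card_union_le (P.roots.toFinset.filter (fun x => 0 < x))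
    ((P.roots.toFinset.filter (fun x => x < 0)) ∪ {0})
  have h6 := Finset.card_union_le (P.roots.toFinset.filter (fun x => x < 0)) {(0:ℝ)}
  rw [Finset.card_singleton] at h6
  omega

lemma roots_subset (P Q : ℝ[X]) (hP : P ≠ 0) (hQ : Q ≠ 0)
    (h : ∀ x, P.eval x = 0 → Q.eval x = 0) : P.roots.toFinset.card ≤ Q.roots.toFinset.card := by
  apply Finset.card_le_card
  intro x hx
  rw [Multiset.mem_toFinset, mem_roots hP] at hx
  rw [Multiset.mem_toFinset, mem_roots hQ]
  exact h x hx

lemma support_lin (u v : ℝ[X]) (a b : ℝ) :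
    (C a * u + C b * v).support.card ≤ u.support.card + v.support.card := by
  have h1 : (C a * u + C b * v).support ⊆ u.support ∪ v.support := by
    intro n hn
    rw [mem_support_iff, coeff_add, coeff_C_mul, coeff_C_mul] at hn
    rw [Finset.mem_union, mem_support_iff, mem_support_iff]
    by_contra hcon
    push Not at hcon
    rw [hcon.1, hcon.2] at hn
    simp at hn
  exact (Finset.card_le_card h1).trans (Finset.card_union_le _ _)

/-- A nonzero `a u² + b v²` has at most `4 (|u|₀ + |v|₀) - 2` distinct real roots. -/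
lemma two_squares (a b : ℝ) (u v : ℝ[X]) (hf : C a * u ^ 2 + C b * v ^ 2 ≠ 0) :
    (C a * u ^ 2 + C b * v ^ 2).roots.toFinset.card + 2 ≤
      4 * (u.support.card + v.support.card) := by
  set f := C a * u ^ 2 + C b * v ^ 2 with hfdef
  have hev : ∀ x, f.eval x = a * (u.eval x) ^ 2 + b * (v.eval x) ^ 2 := by
    intro x; rw [hfdef]; simp
  -- the case in which some root set is contained in that of `u` or `v`
  have hu : ∀ w : ℝ[X], w ≠ 0 → (∀ x, f.eval x = 0 → w.eval x = 0) →
      w.support.card ≤ u.support.card + v.support.card →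
      f.roots.toFinset.card + 2 ≤ 4 * (u.support.card + v.support.card) := by
    intro w hw h1 h2
    have h3 := roots_subset f w hf hw h1
    have h4 := card_roots_le w hw
    omega
  by_cases hab : a * b < 0
  · -- opposite signs
    have main : ∀ (a b : ℝ) (u v : ℝ[X]), 0 < a → b < 0 →
        C a * u ^ 2 + C b * v ^ 2 ≠ 0 →
        (C a * u ^ 2 + C b * v ^ 2).roots.toFinset.card + 2 ≤
          4 * (u.support.card + v.support.card) := by
      intro a b u v ha hb hne
      have hsa : Real.sqrt a ^ 2 = a := Real.sq_sqrt ha.le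
      have hsb : Real.sqrt (-b) ^ 2 = -b := Real.sq_sqrt (by linarith)
      set p := C (Real.sqrt a) * u + C (Real.sqrt (-b)) * v with hp
      set q := C (Real.sqrt a) * u + C (-Real.sqrt (-b)) * v with hq
      have hfac : C a * u ^ 2 + C b * v ^ 2 = p * q := by
        have e1 : (C a : ℝ[X]) = C (Real.sqrt a) ^ 2 := by rw [← C_pow, hsa]
        have e2 : (C b : ℝ[X]) = - C (Real.sqrt (-b)) ^ 2 := by
          rw [← C_pow, hsb, C_neg, neg_neg]
        rw [hp, hq, e1, e2, C_neg]
        ring
      rw [hfac] at hne ⊢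
      have hp0 : p ≠ 0 := left_ne_zero_of_mul hne
      have hq0 : q ≠ 0 := right_ne_zero_of_mul hne
      have h1 := card_roots_le p hp0
      have h2 := card_roots_le q hq0
      have h3 := support_lin u v (Real.sqrt a) (Real.sqrt (-b))
      have h4 := support_lin u v (Real.sqrt a) (-Real.sqrt (-b))
      rw [← hp] at h3
      rw [← hq] at h4
      have h5 : (p * q).roots.toFinset.card ≤ p.roots.toFinset.card + q.roots.toFinset.card := by
        rw [roots_mul hne, Multiset.toFinset_add]
        exact Finset.card_union_le _ _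
      omega
    rcases lt_or_gt_of_ne (show a ≠ 0 by rintro rfl; simp at hab) with ha | ha
    · have hb : 0 < b := by
        by_contra hb
        push Not at hb
        have := mul_nonneg_of_nonpos_of_nonpos ha.le hb
        linarith
      have := main b a v u hb ha (by rw [add_comm]; exact hf)
      rw [add_comm (C b * v ^ 2), Nat.add_comm v.support.card] at this
      exact this
    · have hb : b < 0 := by
        by_contra hb
        push Not at hb
        have := mul_nonneg ha.le hb
        linarith
      exact main a b u v ha hb hf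
  · push Not at hab
    -- `a u(x)² + b v(x)² = 0` forces `a u(x) = 0` and `b v(x) = 0`
    have hz : ∀ x, f.eval x = 0 → a * u.eval x = 0 ∧ b * v.eval x = 0 := by
      intro x hx
      rw [hev] at hx
      have h1 : (a * u.eval x) ^ 2 + (a * b) * (v.eval x) ^ 2 = 0 := by
        have : (a * u.eval x) ^ 2 + (a * b) * (v.eval x) ^ 2 =
          a * (a * (u.eval x) ^ 2 + b * (v.eval x) ^ 2) := by ring
        rw [this, hx, mul_zero]
      have h2 : (b * v.eval x) ^ 2 + (a * b) * (u.eval x) ^ 2 = 0 := by
        have : (b * v.eval x) ^ 2 + (a * b) * (u.eval x) ^ 2 =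
          b * (a * (u.eval x) ^ 2 + b * (v.eval x) ^ 2) := by ring
        rw [this, hx, mul_zero]
      have h3 : 0 ≤ (a * b) * (v.eval x) ^ 2 := mul_nonneg hab (sq_nonneg _)
      have h4 : 0 ≤ (a * b) * (u.eval x) ^ 2 := mul_nonneg hab (sq_nonneg _)
      constructor
      · have : (a * u.eval x) ^ 2 ≤ 0 := by linarith
        exact pow_eq_zero_iff (two_ne_zero) |>.mp (le_antisymm this (sq_nonneg _))
      · have : (b * v.eval x) ^ 2 ≤ 0 := by linarith
        exact pow_eq_zero_iff (two_ne_zero) |>.mp (le_antisymm this (sq_nonneg _))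
    by_cases hau : a = 0 ∨ u = 0
    · have hbv : b ≠ 0 ∧ v ≠ 0 := by
        constructor
        · intro h0
          apply hf
          rw [hfdef, h0]
          rcases hau with h | h <;> simp [h]
        · intro h0
          apply hf
          rw [hfdef, h0]
          rcases hau with h | h <;> simp [h]
      apply hu v hbv.2 _ (by omega)
      intro x hx
      exact (mul_eq_zero.mp (hz x hx).2).resolve_left hbv.1
    · push Not at hau
      apply hu u hau.2 _ (by omega)
      intro x hx
      exact (mul_eq_zero.mp (hz x hx).1).resolve_left hau.1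

/-- Every constant `κ` for which the bound of Q1 holds for sums of two squares
is at least `4`. -/
lemma lower (κ : ℝ)
    (h : ∀ f : Polynomial ℝ, f ≠ 0 →
      ∀ (c : Fin 2 → ℝ) (g : Fin 2 → Polynomial ℝ),
        f = ∑ i, Polynomial.C (c i) * g i ^ 2 →
          (f.roots.toFinset.card : ℝ) ≤ κ * ((∑ i, (g i).support.card : ℕ) : ℝ)) :
    4 ≤ κ := by
  have key : ∀ m : ℕ, 1 ≤ m → (4:ℝ) * m ≤ |κ| * (m + 2) ∧ (0 ≤ κ) := by
    intro m hm
    have h1 := h (f m) (f_ne m) ![2, -1] ![G m, 1] (by
      unfold f; simp [Fin.sum_univ_two])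
    have h2 : (∑ i, ((![G m, 1] : Fin 2 → ℝ[X]) i).support.card : ℕ) ≤ m + 2 := by
      have h3 := G_card m
      have h4 : (1:ℝ[X]).support.card ≤ 1 := by
        have := card_support_C_mul_X_pow_le_one (c := (1:ℝ)) (n := 0)
        simpa using this
      simp only [Fin.sum_univ_two, Matrix.cons_val_zero, Matrix.cons_val_one]
      omega
    have h5 : (4:ℝ) * m ≤ ((f m).roots.toFinset.card : ℝ) := by exact_mod_cast f_roots m hm
    have h6 : (((∑ i, ((![G m, 1] : Fin 2 → ℝ[X]) i).support.card : ℕ)) : ℝ) ≤ m + 2 := by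
      exact_mod_cast h2
    have hmR : (1:ℝ) ≤ (m:ℝ) := by exact_mod_cast hm
    have hS : (0:ℝ) ≤ (((∑ i, ((![G m, 1] : Fin 2 → ℝ[X]) i).support.card : ℕ)) : ℝ) :=
      Nat.cast_nonneg _
    have hk : 0 ≤ κ := by
      by_contra hneg
      push Not at hneg
      have := mul_nonpos_of_nonpos_of_nonneg hneg.le hS
      linarith
    refine ⟨?_, hk⟩
    rw [abs_of_nonneg hk]
    calc (4:ℝ) * m ≤ _ := h5
      _ ≤ _ := h1
      _ ≤ κ * (m + 2) := by gcongr
  have hk := (key 1 le_rfl).2
  by_contra hlt
  push Not at hlt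
  obtain ⟨m, hm⟩ := exists_nat_gt (max 1 (2 * κ / (4 - κ)))
  have hm1 : (1:ℝ) < m := lt_of_le_of_lt (le_max_left _ _) hm
  have hm2 : 2 * κ / (4 - κ) < m := lt_of_le_of_lt (le_max_right _ _) hm
  have h1 := (key m (by exact_mod_cast hm1.le)).1
  rw [abs_of_nonneg hk] at h1
  rw [div_lt_iff₀ (by linarith)] at hm2
  nlinarith

/-- The best constant in Q1 for sums of two squares is exactly `4`: every nonzero
polynomial `c₁ f₁² + c₂ f₂²` has at most `κ (|f₁|₀ + |f₂|₀)` distinct real roots
if and only if `κ ≥ 4`. -/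
theorem result (κ : ℝ) :
    (∀ f : Polynomial ℝ, f ≠ 0 →
      ∀ (c : Fin 2 → ℝ) (g : Fin 2 → Polynomial ℝ),
        f = ∑ i, Polynomial.C (c i) * g i ^ 2 →
          (f.roots.toFinset.card : ℝ) ≤ κ * ((∑ i, (g i).support.card : ℕ) : ℝ)) ↔ 4 ≤ κ := by
  constructor
  · exact lower κ
  · intro hκ f hf c g hfg
    rw [Fin.sum_univ_two] at hfg
    rw [hfg] at hf ⊢
    have h1 := two_squares (c 0) (c 1) (g 0) (g 1) hf
    rw [Fin.sum_univ_two]
    have h2 : ((C (c 0) * g 0 ^ 2 + C (c 1) * g 1 ^ 2).roots.toFinset.card : ℝ) ≤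
        4 * (((g 0).support.card + (g 1).support.card : ℕ) : ℝ) := by
      exact_mod_cast (by omega : (C (c 0) * g 0 ^ 2 + C (c 1) * g 1 ^ 2).roots.toFinset.card ≤
        4 * ((g 0).support.card + (g 1).support.card))
    calc _ ≤ _ := h2
      _ ≤ κ * (((g 0).support.card + (g 1).support.card : ℕ) : ℝ) := by gcongr

end Pool.Agent.Results.MP_f72d10_lc.TwoSquaresSharp
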